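import Pool.Agent.Q55.KY.Stm

/-! Project KY, job CRY. -/

set_option autoImplicit false

namespace Pool.Agent.Q48.KY

open Pool.Agent.Q55.KY

variable {R I X : Type} [AddCommGroup X] {D : Dat R I X}

theorem H_zero (i : I) (p : ℕ → X) : D.H i p 0 = 0 := by
  simp [Dat.H]

theorem H_succ (i : I) (p : ℕ → X) (j : ℕ) : D.H i p (j + 1) = D.H i p j + D.ct (D.sm i) (p j) := by
  simp [Dat.H, Finset.sum_range_succ]

theorem rf_in (i : I) {a b : ℕ} (p : ℕ → X) {j : ℕ} (h : a ≤ j ∧ j < b) :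
    D.rf i a b p j = D.s (D.sm i) (p j) := by
  simp [Dat.rf, h]

theorem rf_out (i : I) {a b : ℕ} (p : ℕ → X) {j : ℕ} (h : ¬ (a ≤ j ∧ j < b)) :
    D.rf i a b p j = p j := by
  unfold Dat.rf
  exact if_neg h

theorem cry : S_Cry := by
  intro R I X _ _ D hA hO lam N hN hH hF hP
  have hN0 : 0 < N := hN.1
  have key : ∀ i, ∀ p ∈ D.LS lam N, ∀ q, D.F i N p q → ∃ a b, D.FD i N p a b ∧ q = D.rf i a b p ∧
      q ∈ D.LS lam N := by
    rintro i p hp q ⟨a, b, hMC, rfl⟩
    obtain ⟨h1, h2⟩ := (hF p hp i).2 a b hMC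
    exact ⟨a, b, h1, rfl, h2⟩
  refine
    { dvm := fun i p hp => (hH p hp i).mnd
      dvh := fun i p hp => (hH p hp i).top
      le0 := fun i p hp => (hH p hp i).le0
      leh := fun i p hp => (hH p hp i).le N le_rfl
      fst := ?_
      lst := ?_
      ex := ?_
      fd := ?_
      mem := ?_
      mq := ?_
      hq := ?_
      lt := ?_
      f0 := ?_
      fN := ?_
      inc := ?_ }
  · intro i p hp h0
    have h1 := (hH p hp i).le 1 hN0
    have h2 := H_succ (D := D) i p 0
    rw [H_zero, zero_add, zero_add] at h2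
    rw [h2, h0] at h1
    exact h1
  · intro i p hp h0
    have h1 := (hH p hp i).le (N - 1) (by omega)
    have h2 := H_succ (D := D) i p (N - 1)
    rw [show N - 1 + 1 = N by omega] at h2
    linarith
  · intro i p hp h0
    obtain ⟨a, b, h⟩ := (hF p hp i).1 h0
    exact ⟨_, a, b, h, rfl⟩
  · intro i p hp q hq
    obtain ⟨a, b, h1, h2, -⟩ := key i p hp q hq
    exact ⟨a, b, h1, h2⟩
  · intro i p hp q hq
    obtain ⟨a, b, -, -, h3⟩ := key i p hp q hq
    exact h3
  · intro i p hp q hq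
    obtain ⟨a, b, h1, rfl, -⟩ := key i p hp q hq
    exact (hP i p a b h1).m
  · intro i p hp q hq
    obtain ⟨a, b, h1, rfl, -⟩ := key i p hp q hq
    exact (hP i p a b h1).h3 N h1.bN
  · intro i p hp q hq
    obtain ⟨a, b, h1, rfl, -⟩ := key i p hp q hq
    exact h1.fin N h1.bN le_rfl
  · intro i p hp q hq
    obtain ⟨a, b, h1, rfl, -⟩ := key i p hp q hq
    have hab := h1.ab
    rcases Nat.eq_zero_or_pos a with rfl | ha
    · right
      refine ⟨?_, h1.slo 0 le_rfl hab, rf_in i p ⟨le_rfl, hab⟩⟩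
      rw [← h1.Ha, H_zero]
    · left
      exact rf_out i p (by omega)
  · intro i p hp q hq
    obtain ⟨a, b, h1, rfl, -⟩ := key i p hp q hq
    have hab := h1.ab
    have hbN := h1.bN
    rcases hbN.lt_or_eq with hb | rfl
    · left
      exact rf_out i p (by omega)
    · right
      exact ⟨h1.Hb, h1.slo _ (by omega) (by omega), rf_in i p (by omega)⟩
  · intro i p hp q hq
    obtain ⟨a, b, h1, rfl, -⟩ := key i p hp q hq
    have hab := h1.ab
    have hbN := h1.bN
    apply Finset.sum_lt_sum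
    · intro k _
      by_cases hk : a ≤ k ∧ k < b
      · rw [rf_in i p hk, hO.up i _ (h1.slo k hk.1 hk.2)]
        exact Nat.le_succ _
      · rw [rf_out i p hk]
    · refine ⟨a, Finset.mem_range.2 (by omega), ?_⟩
      rw [rf_in i p ⟨le_rfl, hab⟩, hO.up i _ (h1.slo a le_rfl hab)]
      exact Nat.lt_succ_self _

end Pool.Agent.Q48.KY
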