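import Pool.Agent.Q48.KY.CRY

/-! Project KY, job FDA. -/

set_option autoImplicit false

namespace Pool.Agent.Q48.KY

open Pool.Agent.Q55.KY

variable {R I X : Type} [AddCommGroup X] {D : Dat R I X}

/-- an interval on which a function does not increase -/
theorem H_anti (i : I) (p : ℕ → X) {j k : ℕ} (hjk : j ≤ k)
    (h : ∀ t, j ≤ t → t < k → D.ct (D.sm i) (p t) ≤ 0) : D.H i p k ≤ D.H i p j := by
  induction k, hjk using Nat.le_induction with
  | base => exact le_rfl
  | succ k hk ih =>
    rw [H_succ]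
    have h1 := ih fun t h1 h2 => h t h1 (by omega)
    have h2 := h k hk (by omega)
    linarith

theorem fda_ex {N : ℕ} {p : ℕ → X} {i : I} (hN : 0 < N)
    (hH : D.HntF i N p) (h : D.mn i N p + N ≤ D.H i p N) : ∃ a b, D.MC i N p a b := by
  classical
  -- the last minimum
  obtain ⟨j0, hj0, hj0'⟩ := hH.att
  have hne : (Finset.filter (fun j => D.H i p j = D.mn i N p) (Finset.range (N + 1))).Nonempty :=
    ⟨j0, by simp [hj0', Nat.lt_succ_iff.2 hj0]⟩
  obtain ⟨a, ha, hmax⟩ : ∃ a, (a ≤ N ∧ D.H i p a = D.mn i N p) ∧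
      ∀ j, j ≤ N → D.H i p j = D.mn i N p → j ≤ a := by
    refine ⟨Finset.max' _ hne, ?_, ?_⟩
    · have := Finset.max'_mem _ hne
      rw [Finset.mem_filter, Finset.mem_range] at this
      exact ⟨by omega, this.2⟩
    · intro j hj h1
      apply Finset.le_max'
      rw [Finset.mem_filter, Finset.mem_range]
      exact ⟨by omega, h1⟩
  have haft : ∀ j, a < j → j ≤ N → D.mn i N p < D.H i p j := by
    intro j h1 h2
    rcases (hH.le j h2).lt_or_eq with h3 | h3
    · exact h3
    · have := hmax j h2 h3.symm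
      omega
  have haN : a < N := by
    rcases ha.1.lt_or_eq with h1 | h1
    · exact h1
    · exfalso
      have h2 := ha.2
      rw [h1] at h2
      have : (0 : ℤ) < N := by exact_mod_cast hN
      omega
  have hex : ∃ b, a < b ∧ D.mn i N p + N ≤ D.H i p b := ⟨N, haN, h⟩
  refine ⟨a, Nat.find hex, (Nat.find_spec hex).1, ?_, ha.2, haft, (Nat.find_spec hex).2, ?_⟩
  · exact Nat.find_le ⟨haN, h⟩
  · intro j h1 h2
    have h3 := Nat.find_min hex h2
    push Not at h3
    exact h3 h1

theorem not_dvd_between {N m h : ℤ} (hm : N ∣ m) (hh : N ∣ h) (h1 : m < h) (h2 : h < m + N) :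
    False := by
  obtain ⟨c, hc⟩ := dvd_sub hh hm
  have h3 : 0 < N := by linarith
  have h4 : 0 < N * c := by linarith
  have h5 : 0 < c := (pos_iff_pos_of_mul_pos h4).1 h3
  have h6 : N * 1 ≤ N * c := mul_le_mul_of_nonneg_left (by omega) h3.le
  linarith

theorem fda : S_Fda := by
  intro R I X _ _ D hA hO hC lam N hN p hp i hH
  have hN0 : 0 < N := hN.1
  have hNZ : (0 : ℤ) < N := by exact_mod_cast hN0
  refine ⟨fda_ex hN0 hH, ?_⟩
  rintro a b ⟨hab, hbN, hHa, haft, hHb, hmid⟩
  -- (A)
  have hAA : ∀ k, a < k → k ≤ N → D.H i p k < D.mn i N p + N → D.ct (D.sm i) (p (k - 1)) ≤ 0 →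
      (k = N ∨ 0 ≤ D.ct (D.sm i) (p k)) → False := by
    intro k h1 h2 h3 h4 h5
    refine not_dvd_between hH.mnd ?_ (haft k h1 h2) h3
    rcases h2.lt_or_eq with h6 | rfl
    · rcases h5 with h5 | h5
      · omega
      · exact hH.loc k (by omega) h6 h4 h5
    · exact hH.top
  -- (B)
  have hB : ∀ j, a ≤ j → j < b → 0 < D.ct (D.sm i) (p j) := by
    intro j h1 h2
    rcases h1.lt_or_eq with h1 | rfl
    · by_contra hcon
      push Not at hcon
      classical
      have hex : ∃ k, j + 1 ≤ k ∧ (k = N ∨ 0 < D.ct (D.sm i) (p k)) := ⟨N, by omega, Or.inl rfl⟩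
      have hk1 := (Nat.find_spec hex).1
      have hk2 := (Nat.find_spec hex).2
      have hkN : Nat.find hex ≤ N := Nat.find_le ⟨by omega, Or.inl rfl⟩
      have hneg : ∀ t, j ≤ t → t < Nat.find hex → D.ct (D.sm i) (p t) ≤ 0 := by
        intro t h3 h4
        rcases h3.lt_or_eq with h3 | rfl
        · have h5 := Nat.find_min hex h4
          push Not at h5
          exact (h5 (by omega)).2
        · exact hcon
      have h6 := H_anti (D := D) i p (show j ≤ Nat.find hex by omega) hneg
      refine hAA (Nat.find hex) (by omega) hkN (lt_of_le_of_lt h6 (hmid j h1 h2))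
        (hneg _ (by omega) (by omega)) ?_
      rcases hk2 with h7 | h7
      · exact Or.inl h7
      · exact Or.inr h7.le
    · have h3 := haft (a + 1) (by omega) (by omega)
      rw [H_succ, hHa] at h3
      linarith
  -- (C)
  have hCC : ∀ j, b ≤ j → j ≤ N → D.mn i N p + N ≤ D.H i p j := by
    by_contra hcon
    push Not at hcon
    obtain ⟨j, hj1, hj2, hj3⟩ := hcon
    obtain ⟨k, hk, hkmin⟩ := Finset.exists_min_image (Finset.Icc b N) (D.H i p)
      ⟨j, Finset.mem_Icc.2 ⟨hj1, hj2⟩⟩
    rw [Finset.mem_Icc] at hk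
    have h1 : D.H i p k < D.mn i N p + N :=
      lt_of_le_of_lt (hkmin j (Finset.mem_Icc.2 ⟨hj1, hj2⟩)) hj3
    have h2 : b < k := by
      rcases hk.1.lt_or_eq with h2 | h2
      · exact h2
      · rw [← h2] at h1
        omega
    refine hAA k (by omega) hk.2 h1 ?_ ?_
    · have h3 := hkmin (k - 1) (Finset.mem_Icc.2 ⟨by omega, by omega⟩)
      have h4 := H_succ (D := D) i p (k - 1)
      rw [show k - 1 + 1 = k by omega] at h4
      linarith
    · rcases hk.2.lt_or_eq with h5 | h5
      · right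
        have h3 := hkmin (k + 1) (Finset.mem_Icc.2 ⟨by omega, by omega⟩)
        rw [H_succ] at h3
        linarith
      · exact Or.inl h5
  -- (D)
  have hD : D.H i p b = D.mn i N p + N := by
    have hc0 := hB (b - 1) (by omega) (by omega)
    have hcN : D.ct (D.sm i) (p (b - 1)) ∣ (N : ℤ) :=
      hN.2 _ (hp.1 (b - 1) (by omega)) _ hc0.ne'
    have h1 : D.ct (D.sm i) (p (b - 1)) ∣ D.H i p (b - 1) := by
      have h2 := hcN.trans (hH.cong (b - 1) (by omega))
      exact (dvd_sub_left (Dvd.intro_left _ rfl)).1 h2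
    have h2 := H_succ (D := D) i p (b - 1)
    rw [show b - 1 + 1 = b by omega] at h2
    have h3 : D.H i p (b - 1) < D.mn i N p + N := by
      rcases (show a ≤ b - 1 by omega).lt_or_eq with h4 | h4
      · exact hmid _ h4 (by omega)
      · rw [← h4, hHa]
        omega
    have h4 : D.ct (D.sm i) (p (b - 1)) ∣ D.mn i N p + N - D.H i p (b - 1) :=
      dvd_sub (dvd_add (hcN.trans hH.mnd) hcN) h1
    have h5 := Int.le_of_dvd (by linarith) h4
    linarith
  refine ⟨⟨hab, hbN, hHa, hH.le, haft, hD, hmid, hCC, hB⟩, ?_, ?_, ?_⟩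
  · intro j hj
    by_cases hjj : a ≤ j ∧ j < b
    · rw [rf_in i p hjj]
      obtain ⟨l, hl⟩ := hp.1 j hj
      exact ⟨i :: l, by rw [hl]; rfl⟩
    · rw [rf_out i p hjj]
      exact hp.1 j hj
  · intro j hj
    rw [rf_out i p (by omega)]
    exact hp.2.1 j hj
  · intro j hj
    have hch := hp.2.2 j hj
    by_cases h1 : a ≤ j ∧ j < b
    · rw [rf_in i p h1]
      by_cases h2 : j + 1 < b
      · rw [rf_in i p ⟨by omega, h2⟩]
        exact hC.l1 _ _ _ _ _ hch (hB _ (by omega) h2) (hB _ h1.1 h1.2)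
      · rw [rf_out i p (by omega)]
        refine Relation.ReflTransGen.tail hch (hC.st _ _ _ _ (hB _ h1.1 h1.2) ?_)
        have hb : b = j + 1 := by omega
        have h3 := hH.cong j (by omega)
        have h4 := H_succ (D := D) i p j
        rw [← hb, hD] at h4
        have h5 : (N : ℤ) ∣ D.mn i N p + N := dvd_add hH.mnd dvd_rfl
        have e : ((j + 1 : ℕ) : ℤ) * D.ct (D.sm i) (p j) =
            (D.mn i N p + N) - (D.H i p j - (j : ℤ) * D.ct (D.sm i) (p j)) := by
          rw [h4]; push_cast; ring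
        rw [e]
        exact dvd_sub h5 h3
    · rw [rf_out i p h1]
      by_cases h2 : a ≤ j + 1 ∧ j + 1 < b
      · have ha : a = j + 1 := by omega
        rw [rf_in i p h2]
        refine hC.l3 _ _ _ _ _ hch (hB _ h2.1 h2.2) ?_
        have h3 := hH.le j (by omega)
        have h4 := H_succ (D := D) i p j
        rw [← ha, hHa] at h4
        linarith
      · rw [rf_out i p h2]
        exact hch

end Pool.Agent.Q48.KY
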