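import Pool.Agent.Q55.KY.Stm

/-! Project KY, job LE1. -/

set_option autoImplicit false

namespace Pool.Agent.Q48.KY

open Pool.Agent.Q55.KY

variable {R I X : Type} [AddCommGroup X] {D : Dat R I X}

theorem s_add (β : R) (x y : X) : D.s β (x + y) = D.s β x + D.s β y := by
  unfold Dat.s
  rw [map_add, add_smul]
  abel

theorem s_neg (β : R) (x : X) : D.s β (-x) = - D.s β x := by
  unfold Dat.s
  rw [map_neg, neg_smul]
  abel

theorem s_smul (β : R) (n : ℤ) (x : X) : D.s β (n • x) = n • D.s β x := by
  unfold Dat.s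
  rw [map_smul, smul_eq_mul, smul_sub, mul_smul]

theorem s_rt (hA : D.Ax) (β : R) : D.s β (D.rt β) = - D.rt β := by
  unfold Dat.s
  rw [hA.two, two_smul]
  abel

theorem act_nil (x : X) : D.act [] x = x := rfl

theorem act_cons (i : I) (l : List I) (x : X) : D.act (i :: l) x = D.s (D.sm i) (D.act l x) := rfl

theorem act_append (l l' : List I) (x : X) : D.act (l ++ l') x = D.act l (D.act l' x) := by
  induction l with
  | nil => rfl
  | cons i l ih => rw [List.cons_append, act_cons, act_cons, ih]

theorem act_add (l : List I) (x y : X) : D.act l (x + y) = D.act l x + D.act l y := by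
  induction l with
  | nil => rfl
  | cons i l ih => rw [act_cons, act_cons, act_cons, ih, s_add]

theorem act_neg (l : List I) (x : X) : D.act l (-x) = - D.act l x := by
  induction l with
  | nil => rfl
  | cons i l ih => rw [act_cons, act_cons, ih, s_neg]

theorem act_smul (l : List I) (n : ℤ) (x : X) : D.act l (n • x) = n • D.act l x := by
  induction l with
  | nil => rfl
  | cons i l ih => rw [act_cons, act_cons, ih, s_smul]

theorem act_rev (hO : D.OrdF) (l : List I) (x : X) : D.act l.reverse (D.act l x) = x := by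
  induction l generalizing x with
  | nil => rfl
  | cons i l ih => rw [List.reverse_cons, act_append, act_cons, act_cons, act_nil, hO.ss, ih]

theorem act_rev' (hO : D.OrdF) (l : List I) (x : X) : D.act l (D.act l.reverse x) = x := by
  have h := act_rev hO l.reverse x
  rwa [List.reverse_reverse] at h

theorem cmp (hA : D.Ax) (hO : D.OrdF) (l : List I) (β : R) :
    ∃ β', (D.rt β' = D.act l (D.rt β) ∧ ∀ x, D.ct β' (D.act l x) = D.ct β x) ∨
    (D.rt β' = - D.act l (D.rt β) ∧ ∀ x, D.ct β' (D.act l x) = - D.ct β x) := by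
  induction l with
  | nil => exact ⟨β, Or.inl ⟨rfl, fun _ => rfl⟩⟩
  | cons i l ih =>
    obtain ⟨β', h⟩ := ih
    obtain ⟨β'', h'⟩ := hA.refl (D.sm i) β'
    refine ⟨β'', ?_⟩
    rcases h with ⟨h1, h2⟩ | ⟨h1, h2⟩ <;> rcases h' with ⟨h3, h4⟩ | ⟨h3, h4⟩
    · left
      refine ⟨by rw [h3, h1, act_cons], fun x => ?_⟩
      rw [act_cons, h4, hO.ss, h2]
    · right
      refine ⟨by rw [h3, h1, act_cons], fun x => ?_⟩
      rw [act_cons, h4, hO.ss, h2]
    · right
      refine ⟨by rw [h3, h1, act_cons, s_neg], fun x => ?_⟩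
      rw [act_cons, h4, hO.ss, h2]
    · left
      refine ⟨by rw [h3, h1, act_cons, s_neg, neg_neg], fun x => ?_⟩
      rw [act_cons, h4, hO.ss, h2, neg_neg]

theorem exc (hA : D.Ax) (hO : D.OrdF) (m : List I) (j : I) :
    ∀ β', D.rt β' = - D.act m (D.rt (D.sm j)) →
    ∃ m', m'.length + 1 = m.length ∧ ∀ x, D.act m' x = D.act m (D.s (D.sm j) x) := by
  induction m with
  | nil =>
    intro β' h
    exact absurd h (hA.pos _ _)
  | cons i m ih =>
    intro β' h
    obtain ⟨β1, ⟨h1, h2⟩ | ⟨h1, h2⟩⟩ := cmp hA hO m (D.sm j)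
    · rw [act_cons, ← h1] at h
      by_cases hb : β1 = D.sm i
      · refine ⟨m, by simp, fun x => ?_⟩
        have e : D.act m (D.s (D.sm j) x) = D.s (D.sm i) (D.act m x) := by
          unfold Dat.s
          rw [sub_eq_add_neg, act_add, act_neg, act_smul, ← h1, ← h2, hb, ← sub_eq_add_neg]
        rw [act_cons, e, hO.ss]
      · obtain ⟨β1', -, h3, -⟩ := hA.simple i β1 hb
        exact absurd (by rw [h, h3] : D.rt β' = - D.rt β1') (hA.pos _ _)
    · obtain ⟨m', h3, h4⟩ := ih β1 h1
      refine ⟨i :: m', by simp [h3], fun x => ?_⟩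
      rw [act_cons, act_cons, h4]

theorem tri (hA : D.Ax) (hO : D.OrdF) : ∀ (n : ℕ) (l : List I), l.length = n →
    (∀ j, ∃ β', D.rt β' = D.act l (D.rt (D.sm j))) → ∀ x, D.act l x = x := by
  intro n
  induction n using Nat.strong_induction_on with
  | _ n ih =>
    intro l hl h x
    rcases List.eq_nil_or_concat l with rfl | ⟨m, j, rfl⟩
    · rfl
    · obtain ⟨β', hβ'⟩ := h j
      rw [List.concat_eq_append, act_append, act_cons, act_nil, s_rt hA, act_neg] at hβ'
      obtain ⟨m', h1, h2⟩ := exc hA hO m j β' hβ'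
      have h3 : ∀ x, D.act m' x = D.act (m.concat j) x := by
        intro x
        rw [h2, List.concat_eq_append, act_append, act_cons, act_nil]
      rw [← h3]
      refine ih m'.length ?_ m' rfl (fun j' => ?_) x
      · rw [← hl, List.length_concat]
        omega
      · obtain ⟨β2, hβ2⟩ := h j'
        exact ⟨β2, by rw [hβ2, h3]⟩

theorem red (hA : D.Ax) (hO : D.OrdF) (i : I) (m : List I) (hr : D.Red (i :: m)) (lam : X)
    (hd : D.Dom lam) : 0 ≤ D.ct (D.sm i) (D.act m lam) := by
  obtain ⟨β', ⟨h1, h2⟩ | ⟨h1, h2⟩⟩ := cmp hA hO m.reverse (D.sm i)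
  · rw [← h2, act_rev hO]
    exact (hO.dom lam hd).1 _
  · exfalso
    obtain ⟨m', h3, h4⟩ := exc hA hO m.reverse i β' h1
    have h5 : ∀ y, D.act m'.reverse y = D.act (i :: m) y := by
      intro y
      have h6 : D.act m' (D.act (i :: m) y) = y := by
        rw [h4, act_cons, hO.ss, act_rev hO]
      rw [← h6, act_rev hO, h6]
    have h7 := hr m'.reverse h5
    rw [List.length_reverse] at h3 h7
    rw [List.length_cons] at h7
    omega

theorem stb (hA : D.Ax) (hO : D.OrdF) (lam : X) (hd : D.Dom lam) : ∀ (n : ℕ) (l : List I),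
    l.length = n → D.act l lam = lam →
    ∃ l', (∀ x, D.act l' x = D.act l x) ∧ ∀ i ∈ l', D.s (D.sm i) lam = lam := by
  intro n
  induction n using Nat.strong_induction_on with
  | _ n ih =>
    intro l hl h
    rcases List.eq_nil_or_concat l with rfl | ⟨m, j, rfl⟩
    · exact ⟨[], fun _ => rfl, by simp⟩
    · have hc : ∀ x, D.act (m.concat j) x = D.act m (D.s (D.sm j) x) := by
        intro x
        rw [List.concat_eq_append, act_append, act_cons, act_nil]
      rw [List.length_concat] at hl
      obtain ⟨β', ⟨h1, h2⟩ | ⟨h1, h2⟩⟩ := cmp hA hO m (D.sm j)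
      · have h3 := h2 (D.s (D.sm j) lam)
        rw [← hc, h, hO.cts] at h3
        have h4 := (hO.dom lam hd).1 β'
        have h5 := hd j
        have h6 : D.ct (D.sm j) lam = 0 := by omega
        have h7 : D.s (D.sm j) lam = lam := by
          unfold Dat.s
          rw [h6, zero_smul, sub_zero]
        rw [hc, h7] at h
        obtain ⟨l', h8, h9⟩ := ih m.length (by omega) m rfl h
        refine ⟨l' ++ [j], fun x => ?_, fun i hi => ?_⟩
        · rw [act_append, act_cons, act_nil, h8, hc]
        · rw [List.mem_append, List.mem_singleton] at hi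
          rcases hi with hi | rfl
          · exact h9 i hi
          · exact h7
      · obtain ⟨m', h3, h4⟩ := exc hA hO m j β' h1
        have h5 : ∀ x, D.act m' x = D.act (m.concat j) x := fun x => by rw [h4, hc]
        obtain ⟨l', h8, h9⟩ := ih m'.length (by omega) m' rfl (by rw [h5, h])
        exact ⟨l', fun x => by rw [h8, h5], h9⟩

theorem le1 : S_Le1 := by
  intro R I X _ _ D hA hO
  exact
    { app := act_append
      rev := act_rev hO
      rev' := act_rev' hO
      add := act_add
      smul := act_smul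
      cmp := cmp hA hO
      exc := exc hA hO
      tri := fun l => tri hA hO l.length l rfl
      red := red hA hO
      stb := fun lam hd l h => stb hA hO lam hd l.length l rfl h }

end Pool.Agent.Q48.KY
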